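import Pool.Agent.helper90.FL.Spec

set_option autoImplicit false

namespace Pool.Agent.helper90.FL

open Finset Polynomial
open scoped Classical

/-- Double counting of the classes touched by `C`. -/
theorem DBL (h : CLS_stmt) (h2 : TCH_stmt) : DBL_stmt := by
  intro V E _ s t D C e T' he hC hL hLp hI hT' h3
  obtain ⟨c1, c2, c3, -, c5⟩ := h V E s t D
  have hfin : (tc s t D C).Finite := Set.toFinite _
  have hcl : ∀ T ∈ tc s t D C, ∀ v ∈ T, T = cls s t D v := by
    rintro T ⟨c, hc, rfl | rfl⟩ v hv
    · exact (c3 _ _ hv).symm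
    · exact (c3 _ _ hv).symm
  have hne : ∀ c ∈ C, cls s t D (s c) ≠ cls s t D (t c) := fun c hc h' => hL c hc ((c5 c).1 h')
  obtain ⟨F, hF⟩ : ∃ F : Finset (Set V), F = hfin.toFinset := ⟨_, rfl⟩
  have hm : ∀ T, T ∈ F ↔ T ∈ tc s t D C := by
    intro T
    rw [hF]
    exact hfin.mem_toFinset
  have hcard : F.card = (tc s t D C).ncard := by rw [hF, Set.ncard_eq_toFinset_card _ hfin]
  have hsum : ∑ T ∈ F, (cut s t C T).card = 2 * C.card := by
    have h4 : ∀ T ∈ F, (cut s t C T).card = ∑ c ∈ C, if ¬ (s c ∈ T ↔ t c ∈ T) then 1 else 0 := by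
      intro T _
      unfold cut
      rw [Finset.card_filter]
    rw [Finset.sum_congr rfl h4, Finset.sum_comm]
    have h5 : ∀ c ∈ C, (∑ T ∈ F, if ¬ (s c ∈ T ↔ t c ∈ T) then 1 else 0) = 2 := by
      intro c hc
      rw [← Finset.card_filter]
      have h6 : (F.filter fun T => ¬ (s c ∈ T ↔ t c ∈ T)) = {cls s t D (s c), cls s t D (t c)} := by
        ext T
        rw [Finset.mem_filter, Finset.mem_insert, Finset.mem_singleton, hm]
        constructor
        · rintro ⟨hT, hT2⟩
          by_cases hs : s c ∈ T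
          · exact Or.inl (hcl T hT _ hs)
          · by_cases ht : t c ∈ T
            · exact Or.inr (hcl T hT _ ht)
            · exact absurd (iff_of_false hs ht) hT2
        · rintro (rfl | rfl)
          · refine ⟨⟨c, hc, Or.inl rfl⟩, fun h7 => hne c hc ?_⟩
            exact (c3 _ _ (h7.1 (c1 _))).symm
          · refine ⟨⟨c, hc, Or.inr rfl⟩, fun h7 => hne c hc ?_⟩
            exact c3 _ _ (h7.2 (c1 _))
      rw [h6, Finset.card_pair (hne c hc)]
    rw [Finset.sum_congr rfl h5, Finset.sum_const, smul_eq_mul, mul_comm]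
  have h2cut : ∀ T ∈ tc s t D C, 2 ≤ (cut s t C T).card := by
    intro T hT
    obtain ⟨c, hc, hTc⟩ := hT
    have hmem : c ∈ cut s t C T := by
      unfold cut
      rw [Finset.mem_filter]
      refine ⟨hc, fun h7 => hne c hc ?_⟩
      rcases hTc with rfl | rfl
      · exact (c3 _ _ (h7.1 (c1 _))).symm
      · exact c3 _ _ (h7.2 (c1 _))
    by_contra hlt
    have h1 : (cut s t C T).card = 1 := by
      have := Finset.card_pos.2 ⟨c, hmem⟩
      omega
    obtain ⟨c', hc'⟩ := Finset.card_eq_one.1 h1
    have hcc : c = c' := by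
      rw [hc'] at hmem
      exact Finset.mem_singleton.1 hmem
    subst hcc
    have hclosed : Cl s t (D ∪ C.erase c) T := by
      intro d hd
      rcases Finset.mem_union.1 hd with hd | hd
      · rcases hTc with rfl | rfl
        · exact c2 _ d hd
        · exact c2 _ d hd
      · by_contra hd2
        have h9 : d ∈ cut s t C T := by
          unfold cut
          rw [Finset.mem_filter]
          exact ⟨Finset.mem_of_mem_erase hd, hd2⟩
        rw [hc'] at h9
        exact Finset.ne_of_mem_erase hd (Finset.mem_singleton.1 h9)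
    have h8 := hLp c hc T hclosed
    unfold cut at hmem
    exact (Finset.mem_filter.1 hmem).2 h8
  have hcount : 3 * F.card ≤ 2 * C.card + T'.ncard := by
    have h9 : ∑ T ∈ F, 3 ≤ ∑ T ∈ F, ((cut s t C T).card + if T ∈ T' then 1 else 0) := by
      refine Finset.sum_le_sum fun T hT => ?_
      by_cases h10 : T ∈ T'
      · rw [if_pos h10]
        have := h2cut T ((hm T).1 hT)
        omega
      · rw [if_neg h10]
        have := h3 T ((hm T).1 hT) h10
        omega
    rw [Finset.sum_const, smul_eq_mul, Finset.sum_add_distrib, hsum, ← Finset.card_filter] at h9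
    have h10 : (F.filter fun T => T ∈ T').card ≤ T'.ncard := by
      rw [← Set.ncard_coe_finset]
      exact Set.ncard_le_ncard (fun T hT => (Finset.mem_filter.1 (Finset.mem_coe.1 hT)).2) (Set.toFinite _)
    omega
  have hne' : (C.erase e).Nonempty := by
    rw [← Finset.card_pos, Finset.card_erase_of_mem he]
    omega
  have hTCH := h2 V E s t D (C.erase e) hne' hI
  have hsub : (tc s t D (C.erase e)).ncard ≤ (tc s t D C).ncard :=
    Set.ncard_le_ncard (by
      rintro T ⟨c, hc, hT⟩
      exact ⟨c, Finset.mem_of_mem_erase hc, hT⟩) hfin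
  rw [Finset.card_erase_of_mem he] at hTCH
  omega

end Pool.Agent.helper90.FL
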